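import Pool.Agent.Helper93.HZ.Spec2
import Pool.Agent.Helper93.HZ.Lib

/-!
# HZ, module RFIN: finitely many orbits of darts and triangles of the resolved complex
-/

set_option autoImplicit false

open MulAction Pointwise

namespace Pool.Agent.Helper93.HZ

/-! ## fields -/

section field

variable {U : Type} {T : SimpleGraph U} {N N' : U → U}

theorem rfin_back (h : IsField T N) {u w : U} (ha : T.Adj u w) (hn : N u ≠ w) : N w = u := by
  by_contra h2
  exact hn ((h.2 u w ha).2 h2)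

theorem rfin_adj (h : IsField T N) {u : U} (hu : N u ≠ u) : T.Adj u (N u) :=
  (h.1 u).resolve_left hu

theorem rfin_onI_symm {u : U} (h : OnI N N' u) : OnI N' N u := by
  intro e
  have h1 := h e.symm
  rw [e, h1]

theorem rfin_ret (h : IsField T N) (h' : IsField T N') {u : U} (hu : OnI N N' u) (hn : N u ≠ u) :
    N' (N u) = u :=
  rfin_back h' (rfin_adj h hn) fun e => hn (hu e.symm)

theorem rfin_step (h : IsField T N) (h' : IsField T N') {u : U} (hu : OnI N N' u) :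
    OnI N N' (N u) := by
  by_cases hn : N u = u
  · rw [hn]
    exact hu
  · intro e
    have h1 := rfin_ret h h' hu hn
    rw [h1] at e
    exact absurd e ((h.2 u (N u) (rfin_adj h hn)).1 rfl)

theorem rfin_iter (h : IsField T N) (h' : IsField T N') {u : U} (hu : OnI N N' u) (k : ℕ) :
    OnI N N' (N^[k] u) := by
  induction k with
  | zero => exact hu
  | succ k ih =>
    rw [Function.iterate_succ_apply']
    exact rfin_step h h' ih

theorem rfin_ret_iter (h : IsField T N) (h' : IsField T N') {u : U} (hu : OnI N N' u) (k : ℕ) :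
    ∃ j : ℕ, u = N'^[j] (N^[k] u) := by
  induction k with
  | zero => exact ⟨0, rfl⟩
  | succ k ih =>
    obtain ⟨j, hj⟩ := ih
    by_cases hn : N (N^[k] u) = N^[k] u
    · refine ⟨j, ?_⟩
      rw [Function.iterate_succ_apply' N, hn]
      exact hj
    · refine ⟨j + 1, ?_⟩
      have h1 := rfin_ret h h' (rfin_iter h h' hu k) hn
      rw [Function.iterate_succ_apply' N, Function.iterate_succ_apply N', h1]
      exact hj

/-- without fixed vertices one returns after exactly `k` steps -/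
theorem rfin_ret_exact (h : IsField T N) (h' : IsField T N') (hN : ∀ u, N u ≠ u) {u : U}
    (hu : OnI N N' u) (k : ℕ) : N'^[k] (N^[k] u) = u := by
  induction k with
  | zero => rfl
  | succ k ih =>
    have h1 := rfin_ret h h' (rfin_iter h h' hu k) (hN _)
    rw [Function.iterate_succ_apply' N, Function.iterate_succ_apply N', h1]
    exact ih

theorem rfin_fin (h : IsField T N) (h' : IsField T N')
    (hC : ∀ u w, OnI N N' u → OnI N N' w → ∃ k : ℕ, w = N^[k] u ∨ w = N'^[k] u)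
    {a b : U} (ha : OnI N N' a) (hb : OnI N N' b) :
    {u | OnI N N' u ∧ (∀ k : ℕ, 1 ≤ k → u ≠ N^[k] a) ∧ (∀ k : ℕ, 1 ≤ k → u ≠ N'^[k] b)}.Finite := by
  obtain ⟨m, hm⟩ := hC a b ha hb
  have hfin : ({b} ∪ (fun i : ℕ => N'^[i] a) '' Set.Iic m : Set U).Finite :=
    (Set.finite_singleton b).union ((Set.finite_Iic m).image _)
  refine hfin.subset ?_
  rintro u ⟨hu, h1, h2⟩
  -- `u` is `N'^[k] a`
  obtain ⟨k, hk⟩ : ∃ k : ℕ, u = N'^[k] a := by
    obtain ⟨k, hk | hk⟩ := hC a u ha hu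
    · by_cases hk1 : 1 ≤ k
      · exact absurd hk (h1 k hk1)
      · have : k = 0 := by omega
        subst this
        exact ⟨0, hk⟩
    · exact ⟨k, hk⟩
  rcases hm with hm | hm
  · left
    obtain ⟨j, hj⟩ := rfin_ret_iter h h' ha m
    rw [← hm] at hj
    have e : u = N'^[k + j] b := by
      rw [Function.iterate_add_apply, ← hj]
      exact hk
    by_cases hkj : 1 ≤ k + j
    · exact absurd e (h2 _ hkj)
    · have : k + j = 0 := by omega
      rw [this] at e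
      exact e
  · right
    by_cases hkm : k ≤ m
    · exact ⟨k, hkm, hk.symm⟩
    · exfalso
      have e : u = N'^[k - m] b := by
        rw [hm, ← Function.iterate_add_apply, Nat.sub_add_cancel (by omega)]
        exact hk
      exact h2 (k - m) (by omega) e

end field

/-! ## orbits -/

section orb

variable {G : Type} [Group G]

theorem rfin_FO_of {α : Type} [MulAction G α] {S F : Set α} (hF : F.Finite)
    (h : ∀ x ∈ S, ∃ f ∈ F, ∃ g : G, x = g • f) : FinOrb G S := by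
  refine (hF.image (fun x : α => orbit G x)).subset ?_
  rintro _ ⟨x, hx, rfl⟩
  obtain ⟨f, hf, g, rfl⟩ := h x hx
  exact ⟨f, hf, (orbit_smul g f).symm⟩

theorem rfin_FO_reps {α : Type} [MulAction G α] {S : Set α} (hS : FinOrb G S) :
    ∃ F : Set α, F.Finite ∧ F ⊆ S ∧ ∀ x ∈ S, ∃ f ∈ F, ∃ g : G, x = g • f := by
  classical
  have hfin : Finite ↥((fun x : α => orbit G x) '' S) := hS.to_subtype
  choose r hr using fun o : ↥((fun x : α => orbit G x) '' S) => o.2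
  refine ⟨Set.range r, Set.finite_range r, ?_, ?_⟩
  · rintro _ ⟨o, rfl⟩
    exact (hr o).1
  · intro x hx
    set o : ↥((fun x : α => orbit G x) '' S) := ⟨orbit G x, x, hx, rfl⟩ with ho
    have h1 : orbit G (r o) = orbit G x := (hr o).2
    have h2 : x ∈ orbit G (r o) := by
      rw [h1]
      exact mem_orbit_self x
    obtain ⟨g, hg⟩ := h2
    exact ⟨r o, ⟨o, rfl⟩, g, hg.symm⟩

theorem rfin_oc_le {α β : Type} [MulAction G α] [MulAction G β] {S : Set α} {S' : Set β}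
    (R : α → β → Prop) (h1 : ∀ b ∈ S', ∃ a ∈ S, R a b)
    (h2 : ∀ a b b' (g : G), R a b → R (g • a) b' → ∃ g' : G, b' = g' • b)
    (hS : FinOrb G S) : FinOrb G S' ∧ oc G S' ≤ oc G S := by
  classical
  have hch : ∀ o : ↥((fun x : β => orbit G x) '' S'), ∃ b a, b ∈ S' ∧ orbit G b = o ∧ a ∈ S ∧ R a b := by
    rintro ⟨o, b, hb, rfl⟩
    obtain ⟨a, ha, hab⟩ := h1 b hb
    exact ⟨b, a, hb, rfl, ha, hab⟩
  choose b a hb hbo ha hab using hch
  set f : ↥((fun x : β => orbit G x) '' S') → ↥((fun x : α => orbit G x) '' S) :=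
    fun o => ⟨orbit G (a o), a o, ha o, rfl⟩ with hf
  have hinj : Function.Injective f := by
    intro o o' hoo
    have h3 : orbit G (a o) = orbit G (a o') := congrArg Subtype.val hoo
    have h4 : a o' ∈ orbit G (a o) := by
      rw [h3]
      exact mem_orbit_self _
    obtain ⟨g, hg⟩ := h4
    have hg' : g • a o = a o' := hg
    obtain ⟨g', hg2⟩ := h2 (a o) (b o) (b o') g (hab o) (by rw [hg']; exact hab o')
    apply Subtype.ext
    rw [← hbo o, ← hbo o', hg2, orbit_smul]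
  have hfinS : Finite ↥((fun x : α => orbit G x) '' S) := hS.to_subtype
  have hfinS' : Finite ↥((fun x : β => orbit G x) '' S') := Finite.of_injective f hinj
  refine ⟨Set.toFinite _, ?_⟩
  unfold oc
  rw [← Nat.card_coe_set_eq, ← Nat.card_coe_set_eq]
  exact Nat.card_le_card_of_injective f hinj

end orb

variable {G : Type} [Group G] {D : Setup G} {K : Cx G} {P : Pts D K}

/-! ## the lines -/

theorem rfin_axis_onI {v : K.V} (hv : ¬ EllV D K v) {u : D.U} :
    OnI (P.N v) (P.M v) u ↔ P.N v u ≠ P.M v u := by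
  constructor
  · intro h e
    exact (P.hyp v hv).1 u (h e)
  · intro h e
    exact absurd e h

/-- the axis is a finite union of orbits of the stabilizer -/
theorem rfin_axis (hTFC : ST_TFC) (v : K.V) (hv : ¬ EllV D K v) :
    ∃ A : Set D.U, A.Finite ∧ ∀ u, P.N v u ≠ P.M v u → ∃ a ∈ A, ∃ g : G, g • v = v ∧ u = g • a := by
  obtain ⟨hN, hM, ⟨z, k, hst, -, hk, hz⟩, u1, hu1⟩ := P.hyp v hv
  have hzv : z • v = v := by
    have : z ∈ stabilizer G v := by
      rw [hst]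
      exact Subgroup.mem_zpowers z
    exact this
  have hzn : ∀ n : ℕ, z ^ n • v = v := by
    intro n
    induction n with
    | zero => rw [pow_zero, one_smul]
    | succ n ih => rw [pow_succ', mul_smul, ih, hzv]
  have hax : ∀ u, P.N v u ≠ P.M v u → ∀ j : ℕ, P.N v ((P.N v)^[j] u) ≠ P.M v ((P.N v)^[j] u) := by
    intro u hu j
    exact (rfin_axis_onI hv).1 (rfin_iter (P.fN v) (P.fM v) ((rfin_axis_onI hv).2 hu) j)
  have hpow : ∀ n : ℕ, ∀ u, P.N v u ≠ P.M v u → z ^ n • u = (P.N v)^[n * k] u := by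
    intro n
    induction n with
    | zero =>
      intro u _
      rw [pow_zero, one_smul, Nat.zero_mul]
      rfl
    | succ n ih =>
      intro u hu
      rw [pow_succ', mul_smul, ih u hu, hz _ (hax u hu _), ← Function.iterate_add_apply]
      congr 2
      ring
  refine ⟨(fun i : ℕ => (P.N v)^[i] u1) '' Set.Iio k, (Set.finite_Iio k).image _, ?_⟩
  -- forward part
  have hfwd : ∀ j : ℕ, ∃ a ∈ (fun i : ℕ => (P.N v)^[i] u1) '' Set.Iio k, ∃ g : G, g • v = v ∧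
      (P.N v)^[j] u1 = g • a := by
    intro j
    refine ⟨(P.N v)^[j % k] u1, ⟨j % k, Nat.mod_lt j hk, rfl⟩, z ^ (j / k), hzn _, ?_⟩
    rw [hpow _ _ (hax u1 hu1 _), ← Function.iterate_add_apply]
    congr 2
    have := Nat.div_add_mod j k
    rw [mul_comm] at this
    exact this.symm
  intro u hu
  have hC := (hTFC D.U D.T D.tree (P.N v) (P.M v) (P.fN v) (P.fM v)).1
  obtain ⟨j, hj | hj⟩ := hC u1 u ((rfin_axis_onI hv).2 hu1) ((rfin_axis_onI hv).2 hu)
  · obtain ⟨a, ha, g, hg, e⟩ := hfwd j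
    exact ⟨a, ha, g, hg, hj.trans e⟩
  · -- `u1 = N^j u`
    have h1 : (P.N v)^[j] u = u1 := by
      rw [hj]
      exact rfin_ret_exact (P.fM v) (P.fN v) hM (rfin_onI_symm ((rfin_axis_onI hv).2 hu1)) j
    have h2 : z ^ j • u = (P.N v)^[j * k - j] u1 := by
      rw [hpow j u hu, ← h1, ← Function.iterate_add_apply, Nat.sub_add_cancel]
      exact Nat.le_mul_of_pos_right j hk
    obtain ⟨a, ha, g, hg, e⟩ := hfwd (j * k - j)
    refine ⟨a, ha, (z ^ j)⁻¹ * g, ?_, ?_⟩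
    · rw [mul_smul, hg, inv_smul_eq_iff, hzn]
    · rw [mul_smul, ← e, ← h2, inv_smul_smul]

theorem rfin_adj2_symm {Q : Thr D K P} {p q : AV Q} (h : adj2 Q p q) : adj2 Q q p := by
  obtain ⟨v, u, h1, h2, h3 | h3⟩ := h
  · exact ⟨v, u, h1, h2, Or.inr h3⟩
  · exact ⟨v, u, h1, h2, Or.inl h3⟩

/-- deep positions are positions on the line -/
theorem rfin_deep (Q : Thr D K P) {x y : K.V} (hxy : K.adj x y) (hfr : Fr K x y)
    (hx : ¬ EllV D K x) (hne : P.N x ≠ P.N y) {k : ℕ} (hk : 1 ≤ k) :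
    adj2 Q (pos Q x y ((P.N x)^[k] (Q.Q x y))) (pos Q y x ((P.N x)^[k] (Q.Q x y))) := by
  obtain ⟨hN, hM, -, -⟩ := P.hyp x hx
  obtain ⟨hI, hA⟩ := Q.hyp x y hxy hfr hx hne
  obtain ⟨k, rfl⟩ : ∃ k', k = k' + 1 := ⟨k - 1, by omega⟩
  set c := Q.Q x y with hc
  set u' := (P.N x)^[k] c with hu'
  have e1 : (P.N x)^[k + 1] c = P.N x u' := Function.iterate_succ_apply' _ _ _
  have e2 : (P.N x)^[k + 2] c = P.N x (P.N x u') := by
    rw [Function.iterate_succ_apply', e1]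
  rw [e1]
  have hIu' : OnI (P.N x) (P.N y) u' := rfin_iter (P.fN x) (P.fN y) hI k
  have hAu' : OnI (P.N x) (P.M x) u' :=
    rfin_iter (P.fN x) (P.fM x) ((rfin_axis_onI hx).2 hA) k
  have hy : P.N y (P.N x u') = u' := rfin_ret (P.fN x) (P.fN y) hIu' (hN u')
  have hm : P.M x (P.N x u') = u' := rfin_ret (P.fN x) (P.fM x) hAu' (hN u')
  have hA2 := rfin_step (P.fN x) (P.fM x) hAu'
  refine ⟨x, P.N x u', hx, (rfin_axis_onI hx).1 hA2, Or.inl ⟨?_, ?_⟩⟩
  · unfold pos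
    rw [if_neg (hN _)]
    have h1 := TRel.t2 (Q := Q) x y (k + 1) hxy hfr hx hne
    rw [e1, e2] at h1
    exact congrArg Sum.inr (Quot.sound h1)
  · unfold pos
    rw [hy, if_neg (fun e => hN u' e.symm), hm]
    have h1 := TRel.t2 (Q := Q) x y k hxy hfr hx hne
    rw [e1, ← hc, ← hu'] at h1
    have h2 : Quot.mk (TRel Q) (.e (P.N x u') u' y x) = Quot.mk (TRel Q) (.e u' (P.N x u') x y) :=
      (Quot.sound (TRel.swU (Q := Q) (P.N x u') u' y x)).trans
        (Quot.sound (TRel.swV (Q := Q) u' (P.N x u') y x))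
    have h3 : Quot.mk (TRel Q) (.l u' (P.N x u') x) = Quot.mk (TRel Q) (.l (P.N x u') u' x) :=
      Quot.sound (TRel.swL (Q := Q) u' (P.N x u') x)
    exact congrArg Sum.inr (h2.trans ((Quot.sound h1).trans h3))

/-- the generator of a hyperbolic vertex is hyperbolic -/
theorem rfin_nell {v : K.V} (hv : ¬ EllV D K v) {z : G} (hz : stabilizer G v = Subgroup.zpowers z) :
    ¬ Ell D z := by
  rintro ⟨u, hu⟩
  apply hv
  refine ⟨u, fun g hg => ?_⟩
  have h1 : g ∈ stabilizer G v := hg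
  rw [hz] at h1
  obtain ⟨n, rfl⟩ := h1
  have h2 : z ∈ stabilizer G u := hu
  exact (stabilizer G u).zpow_mem h2 n

/-- a nontrivial common element of the stabilizers of a hyperbolic vertex and another vertex -/
theorem rfin_common {x y : K.V} (hfr : ¬ Fr K x y) {z : G}
    (hz : stabilizer G x = Subgroup.zpowers z) :
    ∃ n : ℕ, 0 < n ∧ z ^ n • y = y := by
  unfold Fr at hfr
  push Not at hfr
  obtain ⟨g, hg1, hg2, hg3⟩ := hfr
  have h1 : g ∈ stabilizer G x := hg1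
  rw [hz] at h1
  obtain ⟨n, hn⟩ := h1
  have hn' : z ^ n = g := hn
  have hn0 : n ≠ 0 := by
    rintro rfl
    rw [zpow_zero] at hn'
    exact hg3 hn'.symm
  refine ⟨n.natAbs, Int.natAbs_pos.2 hn0, ?_⟩
  have h2 : z ^ n ∈ stabilizer G y := by
    rw [hn']
    exact hg2
  rcases Int.natAbs_eq n with h | h
  · rw [h, zpow_natCast] at h2
    exact h2
  · rw [h, zpow_neg, zpow_natCast] at h2
    have h3 := (stabilizer G y).inv_mem h2
    rw [inv_inv] at h3
    exact h3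

/-- the mixed type is free -/
theorem rfin_mixed (hTFD : ST_TFD) {x y : K.V} (P : Pts D K) (hx : ¬ EllV D K x) (hy : EllV D K y) :
    Fr K x y := by
  by_contra hfr
  obtain ⟨-, -, ⟨z, k, hst, -, -, -⟩, -⟩ := P.hyp x hx
  obtain ⟨n, hn, hny⟩ := rfin_common hfr hst
  obtain ⟨u, hu⟩ := hy
  exact rfin_nell hx hst ((hTFD G D z).1 n hn ⟨u, hu _ hny⟩)

/-- reversing edges -/
theorem rfin_rev (hTFD : ST_TFD) {x y : K.V} (hx : ¬ EllV D K x) (hne : P.N x ≠ P.N y)
    (hfr : ¬ Fr K x y) : P.N y = P.M x := by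
  obtain ⟨-, -, ⟨z, k, hst, -, -, -⟩, u1, hu1⟩ := P.hyp x hx
  obtain ⟨n, hn, hny⟩ := rfin_common hfr hst
  have hzx : z ^ n • x = x := by
    have : z ∈ stabilizer G x := by
      rw [hst]
      exact Subgroup.mem_zpowers z
    exact (stabilizer G x).pow_mem this n
  obtain ⟨N0, M0, k0, -, -, -, -, -, -, -, -, -, huniq⟩ := (hTFD G D z).2 (rfin_nell hx hst)
  have c1 := huniq n hn (P.N x) (P.fN x) (fun u => by
    have := P.eN (z ^ n) x u
    rwa [hzx] at this)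
  have c2 := huniq n hn (P.M x) (P.fM x) (fun u => by
    have := P.eM (z ^ n) x u
    rwa [hzx] at this)
  have c3 := huniq n hn (P.N y) (P.fN y) (fun u => by
    have := P.eN (z ^ n) y u
    rwa [hny] at this)
  have hNM : P.N x ≠ P.M x := fun e => hu1 (congrFun e u1)
  rcases c1 with c1 | c1 <;> rcases c2 with c2 | c2 <;> rcases c3 with c3 | c3
  · exact absurd (c1.trans c2.symm) hNM
  · exact absurd (c1.trans c2.symm) hNM
  · exact absurd (c1.trans c3.symm) hne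
  · exact c3.trans c2.symm
  · exact c3.trans c2.symm
  · exact absurd (c1.trans c3.symm) hne
  · exact absurd (c1.trans c2.symm) hNM
  · exact absurd (c1.trans c2.symm) hNM

theorem rfin_rev_adj2 (Q : Thr D K P) {x y : K.V} (hxy : K.adj x y) (hx : ¬ EllV D K x)
    (hy : ¬ EllV D K y) (hne : P.N x ≠ P.N y) (hfr : ¬ Fr K x y) (hyx : P.N y = P.M x) {u : D.U}
    (hu : OnI (P.N x) (P.N y) u) : adj2 Q (pos Q x y u) (pos Q y x u) := by
  obtain ⟨hN, hM, -, -⟩ := P.hyp x hx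
  rw [hyx] at hu
  have huA := (rfin_axis_onI hx).1 hu
  refine ⟨x, u, hx, huA, Or.inl ⟨?_, ?_⟩⟩
  · unfold pos
    rw [if_neg (hN u)]
    have hA : Ax P x u (P.N x u) := ⟨rfl, rfin_ret (P.fN x) (P.fM x) hu (hN u), hN u⟩
    exact congrArg Sum.inr (Quot.sound (TRel.t4 (Q := Q) x y u (P.N x u) hxy hne hfr hx hy hA))
  · unfold pos
    rw [hyx, if_neg (hM u)]
    have hA : Ax P x (P.M x u) u :=
      ⟨rfin_ret (P.fM x) (P.fN x) (rfin_onI_symm hu) (hM u), rfl, hN _⟩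
    have h1 := Quot.sound (TRel.t4 (Q := Q) x y (P.M x u) u hxy hne hfr hx hy hA)
    have h2 : Quot.mk (TRel Q) (.e u (P.M x u) y x) = Quot.mk (TRel Q) (.e (P.M x u) u x y) :=
      (Quot.sound (TRel.swU (Q := Q) u (P.M x u) y x)).trans
        (Quot.sound (TRel.swV (Q := Q) (P.M x u) u y x))
    have h3 : Quot.mk (TRel Q) (.l (P.M x u) u x) = Quot.mk (TRel Q) (.l u (P.M x u) x) :=
      Quot.sound (TRel.swL (Q := Q) (P.M x u) u x)
    exact congrArg Sum.inr (h2.trans (h1.trans h3))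

/-- for one `K`-dart -/
theorem rfin_dart (hTFC : ST_TFC) (hTFD : ST_TFD) (Q : Thr D K P) (x y : K.V) (hxy : K.adj x y)
    (hnd : P.N x = P.N y → ∃ u', P.N x u' = u') :
    ∃ B : Set D.U, B.Finite ∧ ∀ u, OnI (P.N x) (P.N y) u →
      u ∈ B ∨ adj2 Q (pos Q x y u) (pos Q y x u) := by
  have hC := (hTFC D.U D.T D.tree (P.N x) (P.N y) (P.fN x) (P.fN y)).1
  have hyx : K.adj y x := K.symm _ _ hxy
  by_cases hrev : ¬ EllV D K x ∧ ¬ EllV D K y ∧ ¬ Fr K x y
  · obtain ⟨hx, hy, hfr⟩ := hrev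
    have hne : P.N x ≠ P.N y := by
      intro e
      obtain ⟨u', hu'⟩ := hnd e
      exact (P.hyp x hx).1 u' hu'
    exact ⟨∅, Set.finite_empty, fun u hu =>
      Or.inr (rfin_rev_adj2 Q hxy hx hy hne hfr (rfin_rev hTFD hx hne hfr) hu)⟩
  -- choice of the base vertices
  have hfrx : ¬ EllV D K x → Fr K x y := by
    intro hx
    by_contra hfr
    by_cases hy : EllV D K y
    · exact hfr (rfin_mixed hTFD P hx hy)
    · exact hrev ⟨hx, hy, hfr⟩
  have hfry : ¬ EllV D K y → Fr K y x := by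
    intro hy
    by_contra hfr
    by_cases hx : EllV D K x
    · exact hfr (rfin_mixed hTFD P hy hx)
    · exact hrev ⟨hx, hy, fun h => hfr h.symm⟩
  have hnex : ¬ EllV D K x → P.N x ≠ P.N y := by
    intro hx e
    obtain ⟨u', hu'⟩ := hnd e
    exact (P.hyp x hx).1 u' hu'
  have hney : ¬ EllV D K y → P.N y ≠ P.N x := by
    intro hy e
    obtain ⟨u', hu'⟩ := hnd e.symm
    rw [← e] at hu'
    exact (P.hyp y hy).1 u' hu'
  have hax : ∃ a, OnI (P.N x) (P.N y) a ∧ ((¬ EllV D K x ∧ a = Q.Q x y) ∨ P.N x a = a) := by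
    by_cases hx : EllV D K x
    · obtain ⟨a, ha⟩ := P.ell x hx
      exact ⟨a, fun _ => ha, Or.inr ha⟩
    · exact ⟨Q.Q x y, (Q.hyp x y hxy (hfrx hx) hx (hnex hx)).1, Or.inl ⟨hx, rfl⟩⟩
  have hbx : ∃ b, OnI (P.N x) (P.N y) b ∧ ((¬ EllV D K y ∧ b = Q.Q y x) ∨ P.N y b = b) := by
    by_cases hy : EllV D K y
    · obtain ⟨b, hb⟩ := P.ell y hy
      exact ⟨b, fun e => e.trans hb, Or.inr hb⟩
    · exact ⟨Q.Q y x, rfin_onI_symm (Q.hyp y x hyx (hfry hy) hy (hney hy)).1, Or.inl ⟨hy, rfl⟩⟩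
  obtain ⟨a, haI, ha⟩ := hax
  obtain ⟨b, hbI, hb⟩ := hbx
  refine ⟨{a} ∪ {b} ∪ {u | OnI (P.N x) (P.N y) u ∧ (∀ k : ℕ, 1 ≤ k → u ≠ (P.N x)^[k] a) ∧
    (∀ k : ℕ, 1 ≤ k → u ≠ (P.N y)^[k] b)},
    ((Set.finite_singleton a).union (Set.finite_singleton b)).union
      (rfin_fin (P.fN x) (P.fN y) hC haI hbI), ?_⟩
  intro u hu
  by_cases h1 : ∀ k : ℕ, 1 ≤ k → u ≠ (P.N x)^[k] a
  swap
  · push Not at h1
    obtain ⟨k, hk, rfl⟩ := h1
    rcases ha with ⟨hx, rfl⟩ | ha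
    · exact Or.inr (rfin_deep Q hxy (hfrx hx) hx (hnex hx) hk)
    · left
      left
      left
      exact Function.iterate_fixed ha k
  by_cases h2 : ∀ k : ℕ, 1 ≤ k → u ≠ (P.N y)^[k] b
  swap
  · push Not at h2
    obtain ⟨k, hk, rfl⟩ := h2
    rcases hb with ⟨hy, rfl⟩ | hb
    · exact Or.inr (rfin_adj2_symm (rfin_deep Q hyx (hfry hy) hy (hney hy) hk))
    · left
      left
      right
      exact Function.iterate_fixed hb k
  exact Or.inl (Or.inr ⟨hu, h1, h2⟩)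

/-! ## triangles -/

theorem rfin_pos_eq (Q : Thr D K P) {x y z : K.V} {c : D.U} (ht : K.tri x y z)
    (hxy : P.N x c = P.N y c → P.N x c = c) (hxz : P.N x c = P.N z c → P.N x c = c) :
    pos Q x y c = pos Q x z c := by
  unfold pos
  by_cases h : P.N x c = c
  · rw [if_pos h, if_pos h]
  · rw [if_neg h, if_neg h]
    have hadj := rfin_adj (P.fN x) h
    exact congrArg Sum.inr (Quot.sound (TRel.t1 (Q := Q) x y z c (P.N x c) ht hadj rfl
      (rfin_back (P.fN y) hadj fun e => h (hxy e.symm))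
      (rfin_back (P.fN z) hadj fun e => h (hxz e.symm))))

/-- the triangle over the center -/
noncomputable def rfin_TR (Q : Thr D K P) (x y z : K.V) (c : D.U) : Set (AV Q) :=
  {pos Q x y c, pos Q y z c, pos Q z x c}

theorem rfin_TR_rot (Q : Thr D K P) (x y z : K.V) (c : D.U) :
    rfin_TR Q y z x c = rfin_TR Q x y z c := by
  unfold rfin_TR
  ext p
  simp only [Set.mem_insert_iff, Set.mem_singleton_iff]
  tauto

theorem rfin_center_symm {U : Type} {N₁ N₂ N₃ : U → U} {c : U} (h : IsCenter N₁ N₂ N₃ c) :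
    IsCenter N₂ N₁ N₃ c := by
  obtain ⟨h1, h2, h3⟩ := h
  exact ⟨fun e => e.trans (h1 e.symm), h3, h2⟩

theorem rfin_center_rot {U : Type} {N₁ N₂ N₃ : U → U} {c : U} (h : IsCenter N₁ N₂ N₃ c) :
    IsCenter N₂ N₃ N₁ c := by
  obtain ⟨h1, h2, h3⟩ := h
  exact ⟨h2, fun e => e.trans (h3 e.symm), fun e => e.trans (h1 e.symm)⟩

theorem rfin_TR_swap (Q : Thr D K P) {x y z : K.V} {c : D.U} (ht : K.tri x y z)
    (hc : IsCenter (P.N x) (P.N y) (P.N z) c) : rfin_TR Q y x z c = rfin_TR Q x y z c := by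
  obtain ⟨h1, h2, h3⟩ := hc
  have e1 : pos Q x y c = pos Q x z c := rfin_pos_eq Q ht h1 h3
  have e2 : pos Q y x c = pos Q y z c :=
    rfin_pos_eq Q (K.tri_swap _ _ _ ht) (fun e => e.trans (h1 e.symm)) h2
  have e3 : pos Q z x c = pos Q z y c :=
    rfin_pos_eq Q (K.tri_rot _ _ _ (K.tri_rot _ _ _ ht)) (fun e => e.trans (h3 e.symm))
      (fun e => e.trans (h2 e.symm))
  unfold rfin_TR
  rw [e2, ← e1, ← e3]
  ext p
  simp only [Set.mem_insert_iff, Set.mem_singleton_iff]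
  tauto

theorem rfin_center_uniq (hTFB : ST_TFB) {x y z : K.V} {c c' : D.U}
    (hc : IsCenter (P.N x) (P.N y) (P.N z) c) (hc' : IsCenter (P.N x) (P.N y) (P.N z) c') :
    c = c' := by
  obtain ⟨c0, -, h⟩ := hTFB D.U D.T D.tree _ _ _ (P.fN x) (P.fN y) (P.fN z)
    (fun e => ⟨c, hc.1 (congrFun e c)⟩) (fun e => ⟨c, hc.2.1 (congrFun e c)⟩)
    (fun e => ⟨c, hc.2.2 (congrFun e c)⟩)
  rw [h c hc, h c' hc']

/-- the `K`-triangle determines the triangle of the resolved complex -/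
theorem rfin_TR_det (hTFB : ST_TFB) (Q : Thr D K P) {x y z x' y' z' : K.V} {c c' : D.U}
    (ht : K.tri x y z) (hc : IsCenter (P.N x) (P.N y) (P.N z) c) (ht' : K.tri x' y' z')
    (hc' : IsCenter (P.N x') (P.N y') (P.N z') c') (hset : ({x', y', z'} : Set K.V) = {x, y, z}) :
    rfin_TR Q x' y' z' c' = rfin_TR Q x y z c := by
  have d1 : x' ≠ y' := by
    rintro rfl
    exact K.irrefl _ (K.tri_adj _ _ _ ht')
  have d2 : y' ≠ z' := by
    rintro rfl
    exact K.irrefl _ (K.tri_adj _ _ _ (K.tri_rot _ _ _ ht'))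
  have d3 : z' ≠ x' := by
    rintro rfl
    exact K.irrefl _ (K.tri_adj _ _ _ (K.tri_rot _ _ _ (K.tri_rot _ _ _ ht')))
  have m1 : x = x' ∨ y = x' ∨ z = x' := by
    have : x' ∈ ({x, y, z} : Set K.V) := by rw [← hset]; simp
    simpa [eq_comm] using this
  have m2 : x = y' ∨ y = y' ∨ z = y' := by
    have : y' ∈ ({x, y, z} : Set K.V) := by rw [← hset]; simp
    simpa [eq_comm] using this
  have m3 : x = z' ∨ y = z' ∨ z = z' := by
    have : z' ∈ ({x, y, z} : Set K.V) := by rw [← hset]; simp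
    simpa [eq_comm] using this
  have s1 := rfin_TR_swap Q ht hc
  rcases m1 with rfl | rfl | rfl <;> rcases m2 with rfl | rfl | rfl <;>
    rcases m3 with rfl | rfl | rfl
  all_goals first
    | exact absurd rfl d1
    | exact absurd rfl d2
    | exact absurd rfl d3
    | skip
  · -- x y z
    rw [rfin_center_uniq hTFB hc hc']
  · -- x z y
    have hc2 := rfin_center_rot (rfin_center_rot (rfin_center_symm (rfin_center_rot hc')))
    have e := rfin_center_uniq hTFB hc hc2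
    subst e
    exact (rfin_TR_rot Q _ _ _ _).trans s1
  · -- y x z
    have hc2 := rfin_center_symm hc'
    have e := rfin_center_uniq hTFB hc hc2
    subst e
    exact s1
  · -- y z x
    have hc2 := rfin_center_rot (rfin_center_rot hc')
    have e := rfin_center_uniq hTFB hc hc2
    subst e
    exact rfin_TR_rot Q _ _ _ _
  · -- z x y
    have hc2 := rfin_center_rot hc'
    have e := rfin_center_uniq hTFB hc hc2
    subst e
    exact (rfin_TR_rot Q _ _ _ _).trans (rfin_TR_rot Q _ _ _ _)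
  · -- z y x
    have hc2 := rfin_center_rot (rfin_center_rot (rfin_center_symm hc'))
    have e := rfin_center_uniq hTFB hc hc2
    subst e
    exact (rfin_TR_rot Q _ _ _ _).trans ((rfin_TR_rot Q _ _ _ _).trans s1)

/-! ## assembly -/

theorem rfin_adj2_smul (Q : Thr D K P) (g : G) {p q : AV Q} (h : adj2 Q p q) :
    adj2 Q (g • p) (g • q) := by
  obtain ⟨v, u, h1, h2, h3⟩ := h
  have e1 : g • tk Q (.l u (P.N v u) v) = tk Q (.l (g • u) (P.N (g • v) (g • u)) (g • v)) := by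
    rw [P.eN]
    rfl
  have e2 : g • tk Q (.l u (P.M v u) v) = tk Q (.l (g • u) (P.M (g • v) (g • u)) (g • v)) := by
    rw [P.eM]
    rfl
  refine ⟨g • v, g • u, fun h => h1 ((EllV_smul_iff g).1 h), ?_, ?_⟩
  · rw [P.eN, P.eM]
    exact fun h => h2 (smul_left_cancel g h)
  · rw [← e1, ← e2]
    rcases h3 with ⟨rfl, rfl⟩ | ⟨rfl, rfl⟩
    · exact Or.inl ⟨rfl, rfl⟩
    · exact Or.inr ⟨rfl, rfl⟩

theorem rfin_lines (hTFC : ST_TFC) (P : Pts D K) :
    FinOrb G {q : K.V × D.U | ¬ EllV D K q.1 ∧ P.N q.1 q.2 ≠ P.M q.1 q.2} := by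
  obtain ⟨FV, hFV, -, hFVr⟩ := rfin_FO_reps K.finOrb_v
  have hA : ∀ v : K.V, ∃ A : Set D.U, A.Finite ∧ (¬ EllV D K v → ∀ u, P.N v u ≠ P.M v u →
      ∃ a ∈ A, ∃ g : G, g • v = v ∧ u = g • a) := by
    intro v
    by_cases hv : EllV D K v
    · exact ⟨∅, Set.finite_empty, fun h => absurd hv h⟩
    · obtain ⟨A, hA, h⟩ := rfin_axis hTFC (P := P) v hv
      exact ⟨A, hA, fun _ => h⟩
  choose A hAf hA using hA
  refine rfin_FO_of (F := ⋃ v ∈ FV, (fun a => (v, a)) '' A v)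
    (hFV.biUnion fun v _ => (hAf v).image _) ?_
  rintro ⟨v, u⟩ ⟨hv, hu⟩
  obtain ⟨v0, hv0, g, rfl⟩ := hFVr v (Set.mem_univ _)
  have hv' : ¬ EllV D K v0 := fun h => hv (EllV_smul g h)
  have hu' : P.N v0 (g⁻¹ • u) ≠ P.M v0 (g⁻¹ • u) := by
    intro e
    apply hu
    have h1 := P.eN g v0 (g⁻¹ • u)
    have h2 := P.eM g v0 (g⁻¹ • u)
    rw [smul_inv_smul] at h1 h2
    show P.N (g • v0) u = P.M (g • v0) u
    rw [h1, h2, e]
  obtain ⟨a, ha, k, hk, hua⟩ := hA v0 hv' _ hu'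
  refine ⟨(v0, a), ?_, g * k, ?_⟩
  · rw [Set.mem_iUnion₂]
    exact ⟨v0, hv0, a, ha, rfl⟩
  · have h1 : (g * k) • v0 = g • v0 := by rw [mul_smul, hk]
    have h2 : (g * k) • a = u := by rw [mul_smul, ← hua, smul_inv_smul]
    show (g • v0, u) = ((g * k) • v0, (g * k) • a)
    rw [h1, h2]

theorem rfin_OnI_smul (P : Pts D K) (g : G) {x y : K.V} {u : D.U}
    (h : OnI (P.N (g • x)) (P.N (g • y)) (g • u)) : OnI (P.N x) (P.N y) u := by
  intro e
  have h1 := h (by rw [P.eN, P.eN, e])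
  rw [P.eN] at h1
  exact smul_left_cancel g h1

theorem rfin_darts (hTFC : ST_TFC) (hTFD : ST_TFD) (Q : Thr D K P) :
    FinOrb G {q : (K.V × K.V) × D.U | K.adj q.1.1 q.1.2 ∧
      (P.N q.1.1 = P.N q.1.2 → ∃ u', P.N q.1.1 u' = u') ∧ OnI (P.N q.1.1) (P.N q.1.2) q.2 ∧
      ¬ adj2 Q (pos Q q.1.1 q.1.2 q.2) (pos Q q.1.2 q.1.1 q.2)} := by
  obtain ⟨FD, hFD, hFDs, hFDr⟩ := rfin_FO_reps K.finE
  have hB : ∀ p : K.V × K.V, ∃ B : Set D.U, B.Finite ∧ (K.adj p.1 p.2 →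
      (P.N p.1 = P.N p.2 → ∃ u', P.N p.1 u' = u') → ∀ u, OnI (P.N p.1) (P.N p.2) u →
      u ∈ B ∨ adj2 Q (pos Q p.1 p.2 u) (pos Q p.2 p.1 u)) := by
    intro p
    by_cases h : K.adj p.1 p.2 ∧ (P.N p.1 = P.N p.2 → ∃ u', P.N p.1 u' = u')
    · obtain ⟨B, hB, h'⟩ := rfin_dart hTFC hTFD Q p.1 p.2 h.1 h.2
      exact ⟨B, hB, fun _ _ => h'⟩
    · exact ⟨∅, Set.finite_empty, fun h1 h2 => absurd ⟨h1, h2⟩ h⟩
  choose B hBf hB using hB
  refine rfin_FO_of (F := ⋃ p ∈ FD, (fun b => (p, b)) '' B p)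
    (hFD.biUnion fun p _ => (hBf p).image _) ?_
  rintro ⟨p, u⟩ ⟨hp, hnd, hu, hna⟩
  obtain ⟨p0, hp0, g, rfl⟩ := hFDr p hp
  obtain ⟨x, y⟩ := p0
  obtain ⟨u0, rfl⟩ : ∃ u0, u = g • u0 := ⟨g⁻¹ • u, (smul_inv_smul g u).symm⟩
  have hxy : K.adj x y := hFDs hp0
  have hnd' : P.N x = P.N y → ∃ u', P.N x u' = u' := by
    intro e
    obtain ⟨u', hu'⟩ := hnd ((P.N_eq_smul g).2 e)
    refine ⟨g⁻¹ • u', ?_⟩
    have h1 := P.eN g x (g⁻¹ • u')
    rw [smul_inv_smul] at h1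
    have h2 : g • P.N x (g⁻¹ • u') = u' := h1.symm.trans hu'
    exact (eq_inv_smul_iff.2 h2)
  rcases hB (x, y) hxy hnd' u0 (rfin_OnI_smul P g hu) with h1 | h1
  · refine ⟨((x, y), u0), ?_, g, rfl⟩
    rw [Set.mem_iUnion₂]
    exact ⟨(x, y), hp0, u0, h1, rfl⟩
  · exfalso
    apply hna
    have h2 := rfin_adj2_smul Q g h1
    rw [← pos_smul, ← pos_smul] at h2
    exact h2

theorem rfin_edges (hTFC : ST_TFC) (hTFD : ST_TFD) (Q : Thr D K P) :
    FinOrb G {p : AV Q × AV Q | aadj Q p.1 p.2} := by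
  have h1 := (FinOrb.image (β := AV Q × AV Q)
    (fun q : K.V × D.U => (tk Q (.l q.2 (P.N q.1 q.2) q.1), tk Q (.l q.2 (P.M q.1 q.2) q.1)))
    (rfin_lines hTFC P) (by
      rintro g ⟨v, u⟩
      show (tk Q (.l (g • u) (P.N (g • v) (g • u)) (g • v)),
        tk Q (.l (g • u) (P.M (g • v) (g • u)) (g • v))) = _
      rw [P.eN, P.eM]
      rfl)).1
  have h2 := (FinOrb.image (β := AV Q × AV Q)
    (fun q : K.V × D.U => (tk Q (.l q.2 (P.M q.1 q.2) q.1), tk Q (.l q.2 (P.N q.1 q.2) q.1)))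
    (rfin_lines hTFC P) (by
      rintro g ⟨v, u⟩
      show (tk Q (.l (g • u) (P.M (g • v) (g • u)) (g • v)),
        tk Q (.l (g • u) (P.N (g • v) (g • u)) (g • v))) = _
      rw [P.eN, P.eM]
      rfl)).1
  have h3 := (FinOrb.image (β := AV Q × AV Q)
    (fun q : (K.V × K.V) × D.U => (pos Q q.1.1 q.1.2 q.2, pos Q q.1.2 q.1.1 q.2))
    (rfin_darts hTFC hTFD Q) (by
      rintro g ⟨⟨x, y⟩, u⟩
      show (pos Q (g • x) (g • y) (g • u), pos Q (g • y) (g • x) (g • u)) = _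
      rw [pos_smul, pos_smul]
      rfl)).1
  have h4 : FinOrb G {p : AV Q × AV Q | adj2 Q p.1 p.2} := by
    refine FinOrb.mono (h1.union h2) ?_
    rintro ⟨p, q⟩ ⟨v, u, hv, hu, ⟨hp, hq⟩ | ⟨hq, hp⟩⟩
    · exact Or.inl ⟨(v, u), ⟨hv, hu⟩, Prod.ext hp.symm hq.symm⟩
    · exact Or.inr ⟨(v, u), ⟨hv, hu⟩, Prod.ext hp.symm hq.symm⟩
  refine FinOrb.mono (h4.union h3) ?_
  rintro ⟨p, q⟩ h
  rcases h with ⟨x, y, u, hxy, hnd, hu, hp, hq⟩ | h
  · have hp' : p = pos Q x y u := hp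
    have hq' : q = pos Q y x u := hq
    by_cases h2 : adj2 Q (pos Q x y u) (pos Q y x u)
    · left
      show adj2 Q p q
      rw [hp', hq']
      exact h2
    · right
      exact ⟨((x, y), u), ⟨hxy, hnd, hu, h2⟩, by rw [hp', hq']⟩
  · exact Or.inl h

theorem rfin_TR_smul (Q : Thr D K P) (g : G) (x y z : K.V) (c : D.U) :
    rfin_TR Q (g • x) (g • y) (g • z) (g • c) = g • rfin_TR Q x y z c := by
  unfold rfin_TR
  rw [pos_smul, pos_smul, pos_smul, Set.smul_set_insert, Set.smul_set_insert,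
    Set.smul_set_singleton]

theorem rfin_center_smul (P : Pts D K) (g : G) {x y z : K.V} {c : D.U}
    (h : IsCenter (P.N x) (P.N y) (P.N z) c) :
    IsCenter (P.N (g • x)) (P.N (g • y)) (P.N (g • z)) (g • c) := by
  obtain ⟨h1, h2, h3⟩ := h
  unfold IsCenter
  rw [P.eN, P.eN, P.eN]
  refine ⟨fun e => ?_, fun e => ?_, fun e => ?_⟩
  · rw [h1 (smul_left_cancel g e)]
  · rw [h2 (smul_left_cancel g e)]
  · rw [h3 (smul_left_cancel g e)]

theorem st_RFIN (hTFB : ST_TFB) (hTFC : ST_TFC) (hTFD : ST_TFD) : ST_RFIN := by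
  intro G _ D K P Q
  have hfin : FinOrb G {s : Set K.V | ∃ x y z, K.tri x y z ∧
      (∃ c, IsCenter (P.N x) (P.N y) (P.N z) c) ∧ s = {x, y, z}} := by
    refine FinOrb.mono K.finT ?_
    rintro s ⟨x, y, z, h1, -, h2⟩
    exact ⟨x, y, z, h1, h2⟩
  have key := rfin_oc_le (G := G)
    (S' := {s : Set (AV Q) | ∃ p q r, atri Q p q r ∧ s = {p, q, r}})
    (fun (t : Set K.V) (s : Set (AV Q)) => ∃ x y z c, K.tri x y z ∧
      IsCenter (P.N x) (P.N y) (P.N z) c ∧ t = {x, y, z} ∧ s = rfin_TR Q x y z c) ?_ ?_ hfin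
  · exact ⟨rfin_edges hTFC hTFD Q, key.1, key.2⟩
  · rintro s ⟨p, q, r, ⟨x, y, z, c, ht, hc, rfl, rfl, rfl⟩, rfl⟩
    exact ⟨{x, y, z}, ⟨x, y, z, ht, ⟨c, hc⟩, rfl⟩, x, y, z, c, ht, hc, rfl, rfl⟩
  · rintro t s s' g ⟨x, y, z, c, ht, hc, rfl, rfl⟩ ⟨x', y', z', c', ht', hc', e, rfl⟩
    refine ⟨g, ?_⟩
    rw [← rfin_TR_smul]
    rw [Set.smul_set_insert, Set.smul_set_insert, Set.smul_set_singleton] at e
    exact rfin_TR_det hTFB Q (K.smul_tri g _ _ _ ht) (rfin_center_smul P g hc) ht' hc' e.symm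

end Pool.Agent.Helper93.HZ
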